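import Mathlib
import Pool.Agent.Helper832.CentAut.Ab

/-!
Co-Dedekindian finite `p`-groups: a necessary and sufficient condition.
-/

set_option autoImplicit false

open scoped commutatorElement

namespace Pool.Agent.Results.MP_923d2b_al.Criterion

open Pool.Agent.Helper832.CentAut

theorem result (p : ℕ) (hpf : Fact p.Prime) (G : Type) [Group G] [Finite G]
    (hp : IsPGroup p G) :
    ((∀ a b : G, a * b = b * a) → (CoDedekindian G ↔ IsCyclic G)) ∧
    ((¬ ∀ a b : G, a * b = b * a) →
      (CoDedekindian G ↔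
        (IsCyclic (Subgroup.center G) ∧
          ∀ x : G, ∀ z ∈ Subgroup.center G,
            orderOf z ∣ abOrder x (Nat.card (Subgroup.center G)) → z ∈ Subgroup.zpowers x))) ∧
    ((¬ ∀ a b : G, a * b = b * a) → Nat.card (Subgroup.center G) = p →
      (CoDedekindian G ↔
        ∀ x : G, (¬ ∃ y : G, ∃ h ∈ commutator G, x = y ^ p * h) →
          ∀ z ∈ Subgroup.center G, z ∈ Subgroup.zpowers x)) ∧
    ((∀ (a b : G) (n : ℕ), a ^ (p ^ n) = b ^ (p ^ n) → (a⁻¹ * b) ^ (p ^ n) = 1) →
      (CoDedekindian G ↔ IsCyclic G)) := by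
  have hne : (¬ ∀ a b : G, a * b = b * a) → commutator G ≠ ⊥ := by
    intro h h0
    apply h
    intro a b
    have h1 : ⁅a, b⁆ ∈ commutator G :=
      Subgroup.commutator_mem_commutator (Subgroup.mem_top a) (Subgroup.mem_top b)
    rw [h0, Subgroup.mem_bot, commutatorElement_eq_one_iff_mul_comm] at h1
    exact h1
  refine ⟨fun hab => ⟨cyclic_of_coDed hp hab, coDed_of_cyclic⟩,
    fun h => coDed_iff hp (hne h), ?_, fun hS => coDed_iff_cyclic hp hS⟩
  intro hnc hZ
  rw [coDed_iff hp (hne hnc), hZ]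
  constructor
  · rintro ⟨_, h⟩ x hx z hz
    apply h x z hz
    have h1 : abOrder x p ∣ p :=
      (abOrder_spec x p p).mp ⟨x, 1, Subgroup.one_mem _, by simp⟩
    have h2 : orderOf z ∣ p := by
      rw [← hZ]
      have := orderOf_dvd_natCard (⟨z, hz⟩ : Subgroup.center G)
      rwa [Subgroup.orderOf_mk] at this
    rcases (Nat.dvd_prime hpf.out).mp h1 with h3 | h3
    · exfalso
      apply hx
      obtain ⟨y, c, hc, e⟩ := (abOrder_spec x p 1).mpr (by rw [h3])
      exact ⟨y, c, hc, by rw [← e, pow_one]⟩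
    · rw [h3]
      exact h2
  · intro h
    refine ⟨isCyclic_of_prime_card hZ, ?_⟩
    intro x z hz hord
    by_cases hx : ∃ y : G, ∃ c ∈ commutator G, x = y ^ p * c
    · obtain ⟨y, c, hc, e⟩ := hx
      have h1 := (abOrder_spec x p 1).mp ⟨y, c, hc, by rw [pow_one]; exact e⟩
      have h2 : orderOf z = 1 := Nat.dvd_one.mp (hord.trans h1)
      rw [orderOf_eq_one_iff.mp h2]
      exact Subgroup.one_mem _
    · exact h x hx z hz

end Pool.Agent.Results.MP_923d2b_al.Criterion
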